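import Mathlib
import Pool.Agent.H789R5.RF.TD

/-!
# Partial tree decompositions and how to glue them
-/

set_option autoImplicit false

namespace Pool.Agent.T2H92.CW

open Finset

variable {V : Type} [DecidableEq V]

/-- A tree decomposition of the graph `H`, all of whose edges lie in the vertex set `S`; the root
bag contains `R`. -/
structure PDec (H : SimpleGraph V) (k m : ℕ) (B : ℕ → Finset V) (par : ℕ → ℕ)
    (S R : Finset V) : Prop where
  pos : 0 < m
  parent_lt : ∀ i, 0 < i → par i < i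
  card_le : ∀ i < m, (B i).card ≤ k
  sub : ∀ i < m, B i ⊆ S
  root : R ⊆ B 0
  vert : ∀ v ∈ S, ∃ i, i < m ∧ v ∈ B i
  edge : ∀ u v, H.Adj u v → ∃ i, i < m ∧ u ∈ B i ∧ v ∈ B i
  subtree : ∀ v, ∀ i < m, v ∈ B i → (∃ j < i, v ∈ B j) → v ∈ B (par i)

/-- the bags of the glued decomposition -/
def gbag (m1 : ℕ) (B1 B2 : ℕ → Finset V) (W : Finset V) (i : ℕ) : Finset V :=
  if i = 0 then W else if i ≤ m1 then B1 (i - 1) else B2 (i - 1 - m1)

/-- the parents of the glued decomposition -/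
def gpar (m1 : ℕ) (par1 par2 : ℕ → ℕ) (i : ℕ) : ℕ :=
  if i ≤ 1 then 0 else if i ≤ m1 then par1 (i - 1) + 1 else
    if i = m1 + 1 then 0 else par2 (i - 1 - m1) + 1 + m1

theorem gbag_zero (m1 : ℕ) (B1 B2 : ℕ → Finset V) (W : Finset V) : gbag m1 B1 B2 W 0 = W := rfl

theorem gbag_one {m1 : ℕ} (B1 B2 : ℕ → Finset V) (W : Finset V) {i : ℕ} (hi : i < m1) :
    gbag m1 B1 B2 W (i + 1) = B1 i := by
  unfold gbag
  rw [if_neg (by omega), if_pos (by omega)]
  rfl

theorem gbag_two (m1 : ℕ) (B1 B2 : ℕ → Finset V) (W : Finset V) (i : ℕ) :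
    gbag m1 B1 B2 W (i + 1 + m1) = B2 i := by
  unfold gbag
  rw [if_neg (by omega), if_neg (by omega)]
  congr 1
  omega

theorem cases3 {m1 m2 i : ℕ} (hi : i < 1 + m1 + m2) :
    i = 0 ∨ (∃ j < m1, i = j + 1) ∨ (∃ j < m2, i = j + 1 + m1) := by
  rcases Nat.eq_zero_or_pos i with h | h
  · exact Or.inl h
  · by_cases h1 : i ≤ m1
    · exact Or.inr (Or.inl ⟨i - 1, by omega, by omega⟩)
    · exact Or.inr (Or.inr ⟨i - 1 - m1, by omega, by omega⟩)

theorem PDec.glue {H1 H2 H3 : SimpleGraph V} {k m1 m2 : ℕ} {B1 B2 : ℕ → Finset V}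
    {par1 par2 : ℕ → ℕ} {S1 S2 R1 R2 W S R : Finset V} (h1 : PDec H1 k m1 B1 par1 S1 R1)
    (h2 : PDec H2 k m2 B2 par2 S2 R2) (hW : W.card ≤ k) (hR : R ⊆ W) (hWS : W ⊆ S)
    (hS1 : S1 ⊆ S) (hS2 : S2 ⊆ S) (hS : S ⊆ W ∪ S1 ∪ S2) (h1W : S1 ∩ W ⊆ R1) (h2W : S2 ∩ W ⊆ R2)
    (h12 : S1 ∩ S2 ⊆ W) (hH3 : ∀ u v, H3.Adj u v → u ∈ W ∧ v ∈ W) :
    PDec (H1 ⊔ H2 ⊔ H3) k (1 + m1 + m2) (gbag m1 B1 B2 W) (gpar m1 par1 par2) S R where
  pos := by omega
  parent_lt := by
    intro i hi
    unfold gpar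
    split_ifs with h3 h4 h5
    · exact hi
    · have := h1.parent_lt (i - 1) (by omega)
      omega
    · omega
    · have := h2.parent_lt (i - 1 - m1) (by omega)
      omega
  card_le := by
    intro i hi
    rcases cases3 hi with rfl | ⟨j, hj, rfl⟩ | ⟨j, hj, rfl⟩
    · exact hW
    · rw [gbag_one _ _ _ hj]; exact h1.card_le j hj
    · rw [gbag_two]; exact h2.card_le j hj
  sub := by
    intro i hi
    rcases cases3 hi with rfl | ⟨j, hj, rfl⟩ | ⟨j, hj, rfl⟩
    · exact hWS
    · rw [gbag_one _ _ _ hj]; exact (h1.sub j hj).trans hS1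
    · rw [gbag_two]; exact (h2.sub j hj).trans hS2
  root := hR
  vert := by
    intro v hv
    have := hS hv
    rw [mem_union, mem_union] at this
    rcases this with (h | h) | h
    · exact ⟨0, by omega, h⟩
    · obtain ⟨j, hj, hv⟩ := h1.vert v h
      exact ⟨j + 1, by omega, by rw [gbag_one _ _ _ hj]; exact hv⟩
    · obtain ⟨j, hj, hv⟩ := h2.vert v h
      exact ⟨j + 1 + m1, by omega, by rw [gbag_two]; exact hv⟩
  edge := by
    intro u v huv
    rcases huv with (h | h) | h
    · obtain ⟨j, hj, hu, hv⟩ := h1.edge u v h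
      exact ⟨j + 1, by omega, by rw [gbag_one _ _ _ hj]; exact ⟨hu, hv⟩⟩
    · obtain ⟨j, hj, hu, hv⟩ := h2.edge u v h
      exact ⟨j + 1 + m1, by omega, by rw [gbag_two]; exact ⟨hu, hv⟩⟩
    · exact ⟨0, by omega, hH3 u v h⟩
  subtree := by
    rintro v i hi hv ⟨i', hi', hv'⟩
    rcases cases3 hi with rfl | ⟨j, hj, rfl⟩ | ⟨j, hj, rfl⟩
    · omega
    · rw [gbag_one _ _ _ hj] at hv
      rcases Nat.eq_zero_or_pos j with hj0 | hj0
      · subst hj0
        have : i' = 0 := by omega
        subst this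
        exact hv'
      · have e : gpar m1 par1 par2 (j + 1) = par1 j + 1 := by
          unfold gpar
          rw [if_neg (by omega), if_pos (by omega)]
          rfl
        have hpj := h1.parent_lt j hj0
        rw [e, gbag_one _ _ _ (by omega)]
        apply h1.subtree v j hj hv
        rcases Nat.eq_zero_or_pos i' with h0 | h0
        · subst h0
          exact ⟨0, hj0, h1.root (h1W (mem_inter.2 ⟨h1.sub j hj hv, hv'⟩))⟩
        · obtain ⟨i'', rfl⟩ : ∃ i'', i' = i'' + 1 := ⟨i' - 1, by omega⟩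
          rw [gbag_one _ _ _ (by omega)] at hv'
          exact ⟨i'', by omega, hv'⟩
    · rw [gbag_two] at hv
      have key : v ∈ W ∨ ∃ i'' < j, v ∈ B2 i'' := by
        rcases cases3 (m1 := m1) (m2 := m2) (i := i') (by omega) with rfl | ⟨j', hj', rfl⟩ |
          ⟨j', hj', rfl⟩
        · exact Or.inl hv'
        · rw [gbag_one _ _ _ hj'] at hv'
          exact Or.inl (h12 (mem_inter.2 ⟨h1.sub j' hj' hv', h2.sub j hj hv⟩))
        · rw [gbag_two] at hv'
          exact Or.inr ⟨j', by omega, hv'⟩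
      rcases Nat.eq_zero_or_pos j with hj0 | hj0
      · subst hj0
        have e : gpar m1 par1 par2 (0 + 1 + m1) = 0 := by
          unfold gpar
          split_ifs with h3 h4 h5
          · rfl
          · omega
          · rfl
          · omega
        rw [e]
        rcases key with h | ⟨i'', hi'', _⟩
        · exact h
        · omega
      · have e : gpar m1 par1 par2 (j + 1 + m1) = par2 j + 1 + m1 := by
          unfold gpar
          rw [if_neg (by omega), if_neg (by omega), if_neg (by omega)]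
          congr 3
          omega
        rw [e, gbag_two]
        apply h2.subtree v j hj hv
        rcases key with h | h
        · exact ⟨0, hj0, h2.root (h2W (mem_inter.2 ⟨h2.sub j hj hv, h⟩))⟩
        · exact h

/-- one bag -/
theorem PDec.single (S : Finset V) {k : ℕ} (hS : S.card ≤ k) (R : Finset V) (hR : R ⊆ S) :
    PDec (⊥ : SimpleGraph V) k 1 (fun _ => S) (fun _ => 0) S R where
  pos := one_pos
  parent_lt := fun i hi => hi
  card_le := fun _ _ => hS
  sub := fun _ _ => Subset.refl _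
  root := hR
  vert := fun v hv => ⟨0, one_pos, hv⟩
  edge := fun u v h => (h : False).elim
  subtree := fun _ _ _ hv _ => hv

theorem PDec.treewidth [Fintype V] {H : SimpleGraph V} {k m : ℕ} {B : ℕ → Finset V}
    {par : ℕ → ℕ} {R : Finset V} (h : PDec H k m B par univ R) :
    Pool.Agent.H789R5.TreewidthLE k H :=
  ⟨m, B, par, h.parent_lt, fun i hi => (h.card_le i hi).trans (Nat.le_succ k),
    fun v => h.vert v (mem_univ v), h.edge, h.subtree⟩

end Pool.Agent.T2H92.CW
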