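import Mathlib

/-!
# Hierarchical partitions of graphs and their visible parts

A binary tree with the vertices of a graph as leaves; `types` counts the different neighbourhoods
outside the vertex set of a node (this is Rao's module-width).
-/

set_option autoImplicit false

namespace Pool.Agent.T2H92.CW

open Finset

/-- Rooted binary trees whose leaves are labelled by vertices. -/
inductive BT (V : Type) : Type
  | leaf : V → BT V
  | node : BT V → BT V → BT V

variable {V : Type} [DecidableEq V]

/-- the labels of the leaves -/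
def verts : BT V → Finset V
  | .leaf v => {v}
  | .node l r => verts l ∪ verts r

/-- each vertex is the label of at most one leaf -/
def Once : BT V → Prop
  | .leaf _ => True
  | .node l r => Disjoint (verts l) (verts r) ∧ Once l ∧ Once r

/-! ### Selections -/

theorem exists_sel (m : ℕ) (X Y : Finset V) (h : X.card ≤ m) :
    ∃ S : Finset V, X ⊆ S ∧ S ⊆ X ∪ Y ∧ S.card = min m (X ∪ Y).card :=
  Finset.exists_subsuperset_card_eq subset_union_left
    (le_min h (card_le_card subset_union_left)) (min_le_right _ _)

/-- a set between `X` and `X ∪ Y` with `m` elements, or `X ∪ Y` if it is smaller -/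
noncomputable def sel (m : ℕ) (X Y : Finset V) : Finset V :=
  if h : X.card ≤ m then (exists_sel m X Y h).choose else X

theorem le_sel (m : ℕ) (X Y : Finset V) : X ⊆ sel m X Y := by
  unfold sel
  split_ifs with h
  · exact (exists_sel m X Y h).choose_spec.1
  · exact Subset.refl _

theorem sel_le (m : ℕ) (X Y : Finset V) : sel m X Y ⊆ X ∪ Y := by
  unfold sel
  split_ifs with h
  · exact (exists_sel m X Y h).choose_spec.2.1
  · exact subset_union_left

theorem card_sel {m : ℕ} {X : Finset V} (Y : Finset V) (h : X.card ≤ m) :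
    (sel m X Y).card = min m (X ∪ Y).card := by
  unfold sel
  rw [dif_pos h]
  exact (exists_sel m X Y h).choose_spec.2.2

theorem card_sel_le {m : ℕ} {X : Finset V} (Y : Finset V) (h : X.card ≤ m) :
    (sel m X Y).card ≤ m := by
  rw [card_sel Y h]; exact min_le_left _ _

variable [Fintype V]

open Classical in
/-- the neighbours of `u` outside `A` -/
noncomputable def nbo (G : SimpleGraph V) (A : Finset V) (u : V) : Finset V :=
  univ.filter fun x => G.Adj u x ∧ x ∉ A

theorem mem_nbo {G : SimpleGraph V} {A : Finset V} {u x : V} :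
    x ∈ nbo G A u ↔ G.Adj u x ∧ x ∉ A := by
  simp [nbo]

/-- the number of different neighbourhoods outside `A` of the vertices of `A` -/
noncomputable def types (G : SimpleGraph V) (A : Finset V) : ℕ := (A.image (nbo G A)).card

/-- at most `w` different neighbourhoods at every node of the tree -/
def WidthLE (G : SimpleGraph V) (w : ℕ) : BT V → Prop
  | .leaf v => types G {v} ≤ w
  | .node l r => types G (verts l ∪ verts r) ≤ w ∧ WidthLE G w l ∧ WidthLE G w r

theorem WidthLE.types {G : SimpleGraph V} {w : ℕ} : ∀ {T : BT V}, WidthLE G w T →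
    types G (verts T) ≤ w
  | .leaf _, h => h
  | .node _ _, h => h.1

theorem nbo_eq_of {G : SimpleGraph V} {A B : Finset V} {u u' : V} (hAB : A ⊆ B)
    (h : nbo G A u = nbo G A u') : nbo G B u = nbo G B u' := by
  ext x
  have h1 : x ∈ nbo G A u ↔ x ∈ nbo G A u' := by rw [h]
  rw [mem_nbo, mem_nbo] at h1 ⊢
  constructor
  · rintro ⟨h2, h3⟩
    exact ⟨(h1.1 ⟨h2, fun h => h3 (hAB h)⟩).1, h3⟩
  · rintro ⟨h2, h3⟩
    exact ⟨(h1.2 ⟨h2, fun h => h3 (hAB h)⟩).1, h3⟩

/-! ### Visible vertices -/

/-- the class of `κ` in `S` -/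
noncomputable def cls (G : SimpleGraph V) (A S : Finset V) (κ : Finset V) : Finset V :=
  S.filter fun u => nbo G A u = κ

theorem mem_cls {G : SimpleGraph V} {A S κ : Finset V} {u : V} :
    u ∈ cls G A S κ ↔ u ∈ S ∧ nbo G A u = κ := by
  simp [cls]

/-- at most `a` elements of each class -/
noncomputable def visN (G : SimpleGraph V) (a : ℕ) (A S : Finset V) : Finset V :=
  (S.image (nbo G A)).biUnion fun κ => sel a ∅ (cls G A S κ)

theorem visN_sub (G : SimpleGraph V) (a : ℕ) (A S : Finset V) : visN G a A S ⊆ S := by
  intro x hx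
  rw [visN, mem_biUnion] at hx
  obtain ⟨κ, -, hx⟩ := hx
  have := sel_le _ _ _ hx
  rw [empty_union, mem_cls] at this
  exact this.1

theorem cls_visN (G : SimpleGraph V) (a : ℕ) (A S κ : Finset V) :
    cls G A (visN G a A S) κ = sel a ∅ (cls G A S κ) := by
  ext x
  rw [mem_cls, visN, mem_biUnion]
  constructor
  · rintro ⟨⟨κ', hκ', hx⟩, hxκ⟩
    have h1 := sel_le _ _ _ hx
    rw [empty_union, mem_cls] at h1
    have : κ' = κ := by rw [← h1.2, hxκ]
    rwa [this] at hx
  · intro hx
    have h1 := sel_le _ _ _ hx
    rw [empty_union, mem_cls] at h1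
    exact ⟨⟨κ, mem_image.2 ⟨x, h1.1, h1.2⟩, hx⟩, h1.2⟩

theorem card_cls_visN (G : SimpleGraph V) (a : ℕ) (A S κ : Finset V) :
    (cls G A (visN G a A S) κ).card = min a (cls G A S κ).card := by
  rw [cls_visN, card_sel _ (by simp), empty_union]

/-- the visible vertices of a tree -/
noncomputable def vis (G : SimpleGraph V) (a : ℕ) : BT V → Finset V
  | .leaf v => {v}
  | .node l r => visN G a (verts l ∪ verts r) (vis G a l ∪ vis G a r)

theorem vis_sub (G : SimpleGraph V) (a : ℕ) : ∀ T : BT V, vis G a T ⊆ verts T
  | .leaf _ => Subset.refl _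
  | .node l r => (visN_sub _ _ _ _).trans (union_subset_union (vis_sub G a l) (vis_sub G a r))

theorem cls_mono {G : SimpleGraph V} {A S S' κ : Finset V} (h : S ⊆ S') :
    cls G A S κ ⊆ cls G A S' κ := filter_subset_filter _ h

theorem card_cls_vis (G : SimpleGraph V) {a : ℕ} (ha : 1 ≤ a) : ∀ (T : BT V) (κ : Finset V),
    (cls G (verts T) (vis G a T) κ).card = min a (cls G (verts T) (verts T) κ).card
  | .leaf v, κ => by
    have h1 : (cls G (verts (.leaf v)) (verts (.leaf v)) κ).card ≤ 1 := by
      refine (card_le_card (filter_subset _ _)).trans ?_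
      simp [verts]
    change (cls G (verts (.leaf v)) (verts (.leaf v)) κ).card = _
    omega
  | .node l r, κ => by
    have hl := card_cls_vis G ha l
    have hr := card_cls_vis G ha r
    set A := verts l ∪ verts r with hA
    change (cls G A (visN G a A (vis G a l ∪ vis G a r)) κ).card = min a (cls G A A κ).card
    rw [card_cls_visN]
    have hsub : vis G a l ∪ vis G a r ⊆ A :=
      union_subset_union (vis_sub G a l) (vis_sub G a r)
    have hle := card_le_card (cls_mono (G := G) (A := A) (κ := κ) hsub)
    -- a side with an invisible vertex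
    have side : ∀ T : BT V, (∀ κ, (cls G (verts T) (vis G a T) κ).card =
        min a (cls G (verts T) (verts T) κ).card) → verts T ⊆ A →
        vis G a T ⊆ vis G a l ∪ vis G a r →
        ∀ u ∈ verts T, nbo G A u = κ → u ∉ vis G a T →
        a ≤ (cls G A (vis G a l ∪ vis G a r) κ).card := by
      intro T hT hTA hTv u hu hκ huv
      have h1 := hT (nbo G (verts T) u)
      have h2 : cls G (verts T) (vis G a T) (nbo G (verts T) u) ⊂
          cls G (verts T) (verts T) (nbo G (verts T) u) := by
        rw [ssubset_iff_of_subset (cls_mono (vis_sub G a T))]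
        refine ⟨u, mem_cls.2 ⟨hu, rfl⟩, fun h => huv (mem_cls.1 h).1⟩
      have h3 := card_lt_card h2
      have h4 : cls G (verts T) (vis G a T) (nbo G (verts T) u) ⊆
          cls G A (vis G a l ∪ vis G a r) κ := by
        intro x hx
        rw [mem_cls] at hx ⊢
        exact ⟨hTv hx.1, (nbo_eq_of hTA hx.2).trans hκ⟩
      have h5 := card_le_card h4
      omega
    by_cases h : cls G A A κ ⊆ cls G A (vis G a l ∪ vis G a r) κ
    · have := card_le_card h
      omega
    · rw [not_subset] at h
      obtain ⟨u, hu, hu'⟩ := h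
      rw [mem_cls] at hu hu'
      have hu'' : u ∉ vis G a l ∪ vis G a r := fun h => hu' ⟨h, hu.2⟩
      rw [mem_union, not_or] at hu''
      have key : a ≤ (cls G A (vis G a l ∪ vis G a r) κ).card := by
        rcases mem_union.1 hu.1 with h | h
        · exact side l hl subset_union_left subset_union_left u h hu.2 hu''.1
        · exact side r hr subset_union_right subset_union_right u h hu.2 hu''.2
      omega

/-- The visible part of the class of an invisible vertex has `a` elements. -/
theorem card_cls_of_notMem (G : SimpleGraph V) {a : ℕ} (ha : 1 ≤ a) {T : BT V} {u : V}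
    (hu : u ∈ verts T) (huv : u ∉ vis G a T) :
    (cls G (verts T) (vis G a T) (nbo G (verts T) u)).card = a := by
  have h1 := card_cls_vis G ha T (nbo G (verts T) u)
  have h2 : cls G (verts T) (vis G a T) (nbo G (verts T) u) ⊂
      cls G (verts T) (verts T) (nbo G (verts T) u) := by
    rw [ssubset_iff_of_subset (cls_mono (vis_sub G a T))]
    refine ⟨u, mem_cls.2 ⟨hu, rfl⟩, fun h => huv (mem_cls.1 h).1⟩
  have h3 := card_lt_card h2
  omega

theorem card_vis_le (G : SimpleGraph V) {a w : ℕ} (ha : 1 ≤ a) {T : BT V}
    (h : types G (verts T) ≤ w) : (vis G a T).card ≤ a * w := by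
  have h1 : (vis G a T).card ≤ a * ((vis G a T).image (nbo G (verts T))).card := by
    refine card_le_mul_card_image _ _ fun κ _ => ?_
    have := card_cls_vis G ha T κ
    change (cls G (verts T) (vis G a T) κ).card ≤ a
    omega
  refine h1.trans (Nat.mul_le_mul_left _ (le_trans ?_ h))
  exact card_le_card (image_subset_image (vis_sub G a T))

/-! ### The selected outer neighbours -/

/-- the invariant of the selected outer neighbours -/
structure Inv (G : SimpleGraph V) (b : ℕ) (A : Finset V) (Z : V → Finset V) : Prop where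
  sub : ∀ u ∈ A, Z u ⊆ nbo G A u
  le : ∀ u ∈ A, (Z u).card ≤ b
  full : ∀ u ∈ A, (Z u).card < b → Z u = nbo G A u
  eqv : ∀ u ∈ A, ∀ u' ∈ A, nbo G A u = nbo G A u' → Z u = Z u'

/-- the step down to the child with the vertex set `L`, the other child having the visible
vertices `S` -/
noncomputable def step (G : SimpleGraph V) (b : ℕ) (L S : Finset V) (Z : V → Finset V) (u : V) :
    Finset V := sel b (Z u) (S ∩ nbo G L u)

theorem inv_step {G : SimpleGraph V} {b : ℕ} {L R S A : Finset V} {Z : V → Finset V}
    (hA : A = L ∪ R) (hI : Inv G b A Z) (hd : Disjoint L R) (hSR : S ⊆ R)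
    (hfull : ∀ x ∈ R, x ∉ S → b ≤ (cls G R S (nbo G R x)).card) :
    Inv G b L (step G b L S Z) := by
  subst hA
  have hc : ∀ u ∈ L, (Z u).card ≤ b := fun u hu => hI.le u (mem_union_left _ hu)
  have hsub : ∀ u ∈ L, Z u ⊆ nbo G L u := by
    intro u hu x hx
    have := hI.sub u (mem_union_left _ hu) hx
    rw [mem_nbo] at this ⊢
    exact ⟨this.1, fun h => this.2 (mem_union_left _ h)⟩
  refine ⟨?_, ?_, ?_, ?_⟩
  · intro u hu
    refine (sel_le _ _ _).trans (union_subset (hsub u hu) inter_subset_right)
  · intro u hu
    exact card_sel_le _ (hc u hu)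
  · intro u hu hlt
    have h1 : (sel b (Z u) (S ∩ nbo G L u)).card < b := hlt
    have h2 := card_sel (S ∩ nbo G L u) (hc u hu)
    have h3 : (Z u ∪ (S ∩ nbo G L u)).card < b := by
      rw [h2] at h1
      omega
    have h4 : sel b (Z u) (S ∩ nbo G L u) = Z u ∪ (S ∩ nbo G L u) := by
      apply eq_of_subset_of_card_le (sel_le _ _ _)
      rw [h2]
      omega
    have h5 : (Z u).card < b := (card_le_card subset_union_left).trans_lt h3
    have h6 := hI.full u (mem_union_left _ hu) h5
    change sel b (Z u) (S ∩ nbo G L u) = nbo G L u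
    rw [h4]
    apply Subset.antisymm (union_subset (hsub u hu) inter_subset_right)
    intro x hx
    rw [mem_nbo] at hx
    by_cases hxR : x ∈ R
    · by_cases hxS : x ∈ S
      · exact mem_union_right _ (mem_inter.2 ⟨hxS, mem_nbo.2 hx⟩)
      · exfalso
        have h7 := hfull x hxR hxS
        have h8 : cls G R S (nbo G R x) ⊆ Z u ∪ (S ∩ nbo G L u) := by
          intro y hy
          rw [mem_cls] at hy
          refine mem_union_right _ (mem_inter.2 ⟨hy.1, ?_⟩)
          have hux : u ∈ nbo G R x :=
            mem_nbo.2 ⟨hx.1.symm, fun h => (disjoint_left.1 hd hu h)⟩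
          rw [← hy.2, mem_nbo] at hux
          rw [mem_nbo]
          exact ⟨hux.1.symm, fun hyL => disjoint_left.1 hd hyL (hSR hy.1)⟩
        have h9 := card_le_card h8
        omega
    · apply mem_union_left
      rw [h6, mem_nbo]
      refine ⟨hx.1, fun h => ?_⟩
      rcases mem_union.1 h with h | h
      · exact hx.2 h
      · exact hxR h
  · intro u hu u' hu' h
    have h1 := hI.eqv u (mem_union_left _ hu) u' (mem_union_left _ hu')
      (nbo_eq_of subset_union_left h)
    change sel b (Z u) (S ∩ nbo G L u) = sel b (Z u') (S ∩ nbo G L u')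
    rw [h1, h]

end Pool.Agent.T2H92.CW
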