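import Mathlib
import Pool.Agent.T2H92.CW.Tree
import Pool.Agent.T2H92.CW.Dec
import Pool.Agent.H283R2.DR.Glue
import Pool.Agent.H283R2.DR.IndepLocal

/-!
# The sparse subgraph and its rigidity
-/

set_option autoImplicit false

namespace Pool.Agent.T2H92.CW

open Finset Matrix Pool.Agent.H283R2.DR

variable {V : Type} [DecidableEq V]

/-- all selected outer neighbours -/
def zz (T : BT V) (Z : V → Finset V) : Finset V := (verts T).biUnion Z

theorem mem_zz {T : BT V} {Z : V → Finset V} {x : V} : x ∈ zz T Z ↔ ∃ u ∈ verts T, x ∈ Z u := by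
  simp [zz]

theorem sub_zz {T : BT V} {Z : V → Finset V} {u : V} (hu : u ∈ verts T) : Z u ⊆ zz T Z :=
  fun _ hx => mem_zz.2 ⟨u, hu, hx⟩

omit [DecidableEq V] in
theorem dot_of_rigid {d : ℕ} {H : SimpleGraph V} {S : Set V} {p q : V → Fin d → ℝ}
    (hS : RigidOn H S p) (hq : IsMotion H p q) {u v : V} (hu : u ∈ S) (hv : v ∈ S) :
    (p u - p v) ⬝ᵥ (q u - q v) = 0 := by
  obtain ⟨A, b, hA, hb⟩ := hS q (fun u _ v _ h => hq u v h)
  rw [hb u hu, hb v hv, add_sub_add_right_eq_sub, ← Matrix.mulVec_sub]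
  exact skew_dot_self hA _

theorem body {d : ℕ} {H : SimpleGraph V} {p : V → Fin d → ℝ} (hp : Gen p) {Zu Y : Finset V} {u : V}
    (hZ : Zu.card = d + 1) (hY : d * d + d ≤ Y.card) (h1 : ∀ z ∈ Zu, ∀ y ∈ Y, H.Adj z y)
    (h2 : ∀ z ∈ Zu, H.Adj u z) : RigidOn H (insert u (↑(Zu ∪ Y) : Set V)) p := by
  refine IL.extend hp H _ (rigid_bipartite hp H Zu Y hZ hY h1) u Zu (by omega) ?_ h2
  intro x hx
  rw [mem_coe]
  exact mem_union_left _ hx

variable [Fintype V]

theorem card_zz_le {G : SimpleGraph V} {b w : ℕ} {T : BT V} {Z : V → Finset V}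
    (hI : Inv G b (verts T) Z) (hw : types G (verts T) ≤ w) : (zz T Z).card ≤ b * w := by
  classical
  set F : Finset V → Finset V := fun κ =>
    if h : ∃ u ∈ verts T, nbo G (verts T) u = κ then Z h.choose else ∅ with hF
  have hsub : zz T Z ⊆ ((verts T).image (nbo G (verts T))).biUnion F := by
    intro x hx
    obtain ⟨u, hu, hx⟩ := mem_zz.1 hx
    rw [mem_biUnion]
    refine ⟨nbo G (verts T) u, mem_image_of_mem _ hu, ?_⟩
    have hex : ∃ u' ∈ verts T, nbo G (verts T) u' = nbo G (verts T) u := ⟨u, hu, rfl⟩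
    simp only [hF]
    rw [dif_pos hex, hI.eqv hex.choose hex.choose_spec.1 u hu hex.choose_spec.2]
    exact hx
  refine (card_le_card hsub).trans ?_
  refine (card_biUnion_le_card_mul _ _ b ?_).trans ?_
  · intro κ _
    simp only [hF]
    split_ifs with h
    · exact hI.le _ h.choose_spec.1
    · simp
  · rw [mul_comm]
    exact Nat.mul_le_mul_left _ hw

/-- the data of a node which are used in the rigidity argument -/
structure Side (G H : SimpleGraph V) (d : ℕ) (T : BT V) (Z : V → Finset V) (W : Finset V) :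
    Prop where
  inv : Inv G (d + 1) (verts T) Z
  hW : vis G (d * d + d) T ∪ zz T Z ⊆ W
  hid : ∀ u ∈ verts T, u ∉ vis G (d * d + d) T → ∀ z ∈ Z u, H.Adj u z

variable {G H : SimpleGraph V} {d : ℕ} {T : BT V} {Z : V → Finset V} {W : Finset V}

theorem Side.adj (hs : Side G H d T Z W) (hW : ∀ x ∈ W, ∀ y ∈ W, G.Adj x y → H.Adj x y) {u : V}
    (hu : u ∈ verts T) {z : V} (hz : z ∈ Z u) : H.Adj u z := by
  by_cases huv : u ∈ vis G (d * d + d) T
  · apply hW u (hs.hW (mem_union_left _ huv)) z (hs.hW (mem_union_right _ (sub_zz hu hz)))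
    exact (mem_nbo.1 (hs.inv.sub u hu hz)).1
  · exact hs.hid u hu huv z hz

theorem Side.card (hs : Side G H d T Z W) {u v : V} (hu : u ∈ verts T) (hv : v ∉ verts T)
    (huv : G.Adj u v) (hvZ : v ∉ Z u) : (Z u).card = d + 1 := by
  by_contra hc
  have h1 := hs.inv.le u hu
  have h2 := hs.inv.full u hu (by omega)
  rw [h2, mem_nbo] at hvZ
  exact hvZ ⟨huv, hv⟩

/-- The body of a hidden vertex. -/
theorem Side.body (hd : 1 ≤ d) (hs : Side G H d T Z W)
    (hW : ∀ x ∈ W, ∀ y ∈ W, G.Adj x y → H.Adj x y) {p : V → Fin d → ℝ} (hp : Gen p) {u v : V}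
    (hu : u ∈ verts T) (hv : v ∉ verts T) (huv : G.Adj u v) (hvZ : v ∉ Z u)
    (huh : u ∉ vis G (d * d + d) T) : ∃ Y : Finset V, Y ⊆ W ∧ Y.card = d * d + d ∧
      Y ⊆ verts T ∧ (∀ y ∈ Y, nbo G (verts T) y = nbo G (verts T) u) ∧
      RigidOn H (insert u (↑(Z u ∪ Y) : Set V)) p := by
  have h1 : 1 ≤ d * d + d := by omega
  set Y := cls G (verts T) (vis G (d * d + d) T) (nbo G (verts T) u) with hY
  have hYW : Y ⊆ W := fun y hy => hs.hW (mem_union_left _ (mem_cls.1 hy).1)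
  have hYc : Y.card = d * d + d := card_cls_of_notMem G h1 hu huh
  refine ⟨Y, hYW, hYc, fun y hy => vis_sub _ _ _ (mem_cls.1 hy).1, fun y hy => (mem_cls.1 hy).2, ?_⟩
  refine CW.body hp (hs.card hu hv huv hvZ) hYc.ge ?_ (fun z hz => hs.adj hW hu hz)
  intro z hz y hy
  apply (hW y (hYW hy) z (hs.hW (mem_union_right _ (sub_zz hu hz))) ?_).symm
  have h2 := hs.inv.sub u hu hz
  rw [← (mem_cls.1 hy).2, mem_nbo] at h2
  exact h2.1

/-- one end is hidden, the other one visible -/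
theorem cross_hv (hd : 1 ≤ d) (hs : Side G H d T Z W)
    (hW : ∀ x ∈ W, ∀ y ∈ W, G.Adj x y → H.Adj x y) {p q : V → Fin d → ℝ} (hp : Gen p)
    (hq : IsMotion H p q) {u v : V}
    (hu : u ∈ verts T) (hv : v ∉ verts T) (huv : G.Adj u v) (hvZ : v ∉ Z u)
    (huh : u ∉ vis G (d * d + d) T) (hvW : v ∈ W) : (p u - p v) ⬝ᵥ (q u - q v) = 0 := by
  obtain ⟨Y, hYW, hYc, hYT, hYn, hR⟩ := hs.body hd hW hp hu hv huv hvZ huh
  have h2 := IL.extend hp H _ hR v Y (by rw [hYc]; nlinarith) (fun y hy => by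
    refine Set.mem_insert_of_mem _ ?_
    rw [mem_coe]
    exact mem_union_right _ hy) (fun y hy => by
    apply hW v hvW y (hYW hy)
    have h3 : v ∈ nbo G (verts T) u := mem_nbo.2 ⟨huv, hv⟩
    rw [← hYn y hy, mem_nbo] at h3
    exact h3.1.symm)
  exact dot_of_rigid h2 hq (Set.mem_insert_of_mem _ (Set.mem_insert _ _)) (Set.mem_insert _ _)

theorem cross (hd : 1 ≤ d) {l r : BT V} {Zl Zr : V → Finset V} (hl : Side G H d l Zl W)
    (hr : Side G H d r Zr W) (hdj : Disjoint (verts l) (verts r))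
    (hW : ∀ x ∈ W, ∀ y ∈ W, G.Adj x y → H.Adj x y) {p q : V → Fin d → ℝ} (hp : Gen p)
    (hq : IsMotion H p q) {u v : V} (hu : u ∈ verts l) (hv : v ∈ verts r) (huv : G.Adj u v) :
    (p u - p v) ⬝ᵥ (q u - q v) = 0 := by
  have hvl : v ∉ verts l := fun h => disjoint_left.1 hdj h hv
  have hur : u ∉ verts r := fun h => disjoint_left.1 hdj hu h
  by_cases hvZ : v ∈ Zl u
  · exact hq u v (hl.adj hW hu hvZ)
  by_cases huZ : u ∈ Zr v
  · exact hq u v (hr.adj hW hv huZ).symm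
  by_cases hul : u ∈ vis G (d * d + d) l
  · have huW : u ∈ W := hl.hW (mem_union_left _ hul)
    by_cases hvr : v ∈ vis G (d * d + d) r
    · exact hq u v (hW u huW v (hr.hW (mem_union_left _ hvr)) huv)
    · have := cross_hv hd hr hW hp hq hv hur huv.symm huZ hvr huW
      rw [← neg_sub (p u), ← neg_sub (q u), neg_dotProduct_neg] at this
      exact this
  · by_cases hvr : v ∈ vis G (d * d + d) r
    · exact cross_hv hd hl hW hp hq hu hvl huv hvZ hul (hr.hW (mem_union_left _ hvr))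
    · obtain ⟨Y, hYW, hYc, hYT, hYn, hR⟩ := hl.body hd hW hp hu hvl huv hvZ hul
      obtain ⟨Y', hYW', hYc', hYT', hYn', hR'⟩ := hr.body hd hW hp hv hur huv.symm huZ hvr
      have hYY : ∀ y ∈ Y, ∀ y' ∈ Y', H.Adj y' y := by
        intro y hy y' hy'
        apply hW y' (hYW' hy') y (hYW hy)
        have h3 : v ∈ nbo G (verts l) u := mem_nbo.2 ⟨huv, hvl⟩
        rw [← hYn y hy, mem_nbo] at h3
        have h4 : y ∈ nbo G (verts r) v :=
          mem_nbo.2 ⟨h3.1.symm, fun h => disjoint_left.1 hdj (hYT hy) h⟩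
        rw [← hYn' y' hy', mem_nbo] at h4
        exact h4.1
      obtain ⟨Z0, hZ0, hZc⟩ := exists_subset_card_eq (s := Y') (n := d + 1)
        (by rw [hYc']; nlinarith)
      have hmid := rigid_bipartite hp H Z0 Y hZc hYc.ge (fun z hz y hy => hYY y hy z (hZ0 hz))
      have h5 := IL.glue hp H _ _ hR hmid Y (by rw [hYc]; nlinarith) (fun y hy =>
        ⟨Set.mem_insert_of_mem _ (mem_coe.2 (mem_union_right _ hy)),
          mem_coe.2 (mem_union_right _ hy)⟩)
      have h6 := IL.glue hp H _ _ h5 hR' Z0 (by omega) (fun z hz =>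
        ⟨Or.inr (mem_coe.2 (mem_union_left _ hz)),
          Set.mem_insert_of_mem _ (mem_coe.2 (mem_union_right _ (hZ0 hz)))⟩)
      exact dot_of_rigid h6 hq (Or.inl (Or.inl (Set.mem_insert _ _))) (Or.inr (Set.mem_insert _ _))

end Pool.Agent.T2H92.CW
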