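import Mathlib
import Pool.Agent.T2H92.CW.Rigid

/-!
# The main induction
-/

set_option autoImplicit false

namespace Pool.Agent.T2H92.CW

open Finset Matrix Pool.Agent.H283R2.DR

variable {V : Type} [DecidableEq V] [Fintype V]

/-- the properties of the sparse subgraph at a node -/
structure Out (G H : SimpleGraph V) (d w : ℕ) (T : BT V) (Z : V → Finset V) : Prop where
  le : H ≤ G
  dec : ∃ m B par, PDec H (2 * (d + 1) ^ 2 * w) m B par (verts T ∪ zz T Z)
    (vis G (d * d + d) T ∪ zz T Z)
  hid : ∀ u ∈ verts T, u ∉ vis G (d * d + d) T → ∀ z ∈ Z u, H.Adj u z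
  mot : ∀ p : V → Fin d → ℝ, Gen p → ∀ q, IsMotion H p q → ∀ u ∈ verts T, ∀ v ∈ verts T,
    G.Adj u v → (p u - p v) ⬝ᵥ (q u - q v) = 0

/-- the edges of `G` inside `W` -/
def inside (G : SimpleGraph V) (W : Finset V) : SimpleGraph V where
  Adj u v := G.Adj u v ∧ u ∈ W ∧ v ∈ W
  symm := ⟨fun _ _ h => ⟨h.1.symm, h.2.2, h.2.1⟩⟩
  loopless := ⟨fun _ h => h.1.ne rfl⟩

theorem out_leaf {G : SimpleGraph V} {d w : ℕ} {v : V} {Z : V → Finset V}
    (hw : WidthLE G w (.leaf v)) (hI : Inv G (d + 1) (verts (.leaf v)) Z) :
    Out G ⊥ d w (.leaf v) Z where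
  le := bot_le
  dec := by
    have hw1 : 1 ≤ w := by
      have : types G {v} ≤ w := hw
      refine le_trans ?_ this
      unfold types
      rw [image_singleton, card_singleton]
    refine ⟨1, _, _, PDec.single _ ?_ _ (Subset.refl _)⟩
    refine (card_union_le _ _).trans ?_
    have h1 := card_zz_le hI hw.types
    have h2 : (verts (BT.leaf v)).card = 1 := card_singleton v
    have h3 : (d + 1) * w ≤ (d + 1) ^ 2 * w := Nat.mul_le_mul_right _ (by nlinarith)
    have h4 : 1 ≤ (d + 1) ^ 2 * w := Nat.one_le_iff_ne_zero.2 (by positivity)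
    rw [h2, mul_assoc]
    omega
  hid := by
    intro u hu hu'
    exact absurd hu hu'
  mot := by
    intro p _ q _ u hu u' hu' h
    rw [verts, mem_singleton] at hu hu'
    subst hu hu'
    exact (h.ne rfl).elim

theorem out_node {G Hl Hr : SimpleGraph V} {d w : ℕ} (hd : 1 ≤ d) {l r : BT V}
    {Z : V → Finset V} (hT : Once (.node l r)) (hw : WidthLE G w (.node l r))
    (hI : Inv G (d + 1) (verts (.node l r)) Z)
    (hIl : Inv G (d + 1) (verts l) (step G (d + 1) (verts l) (vis G (d * d + d) r) Z))
    (hIr : Inv G (d + 1) (verts r) (step G (d + 1) (verts r) (vis G (d * d + d) l) Z))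
    (hl : Out G Hl d w l (step G (d + 1) (verts l) (vis G (d * d + d) r) Z))
    (hr : Out G Hr d w r (step G (d + 1) (verts r) (vis G (d * d + d) l) Z)) :
    ∃ H, Out G H d w (.node l r) Z := by
  set a := d * d + d with ha
  have ha1 : 1 ≤ a := by omega
  set Zl := step G (d + 1) (verts l) (vis G a r) Z with hZl
  set Zr := step G (d + 1) (verts r) (vis G a l) Z with hZr
  set W := (vis G a l ∪ zz l Zl) ∪ (vis G a r ∪ zz r Zr) with hW
  have hZZl : ∀ u, Z u ⊆ Zl u := fun u => le_sel _ _ _
  have hZZr : ∀ u, Z u ⊆ Zr u := fun u => le_sel _ _ _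
  have hZlle : ∀ u, Zl u ⊆ Z u ∪ vis G a r := fun u =>
    (sel_le _ _ _).trans (union_subset_union (Subset.refl _) inter_subset_left)
  have hZrle : ∀ u, Zr u ⊆ Z u ∪ vis G a l := fun u =>
    (sel_le _ _ _).trans (union_subset_union (Subset.refl _) inter_subset_left)
  have hdj := disjoint_left.1 hT.1
  have hZout : ∀ u ∈ verts (.node l r), ∀ x ∈ Z u, x ∉ verts l ∧ x ∉ verts r := by
    intro u hu x hx
    have := (mem_nbo.1 (hI.sub u hu hx)).2
    rw [verts, mem_union, not_or] at this
    exact this
  have hvl := vis_sub G a l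
  have hvr := vis_sub G a r
  have hml : ∀ u ∈ verts l, u ∈ verts (.node l r) := fun u hu => mem_union_left _ hu
  have hmr : ∀ u ∈ verts r, u ∈ verts (.node l r) := fun u hu => mem_union_right _ hu
  -- the selected outer neighbours of the children
  have hzl : ∀ x ∈ zz l Zl, x ∈ zz (.node l r) Z ∨ x ∈ vis G a r := by
    intro x hx
    obtain ⟨u, hu, hx⟩ := mem_zz.1 hx
    rcases mem_union.1 (hZlle u hx) with h | h
    · exact Or.inl (mem_zz.2 ⟨u, hml u hu, h⟩)
    · exact Or.inr h
  have hzr : ∀ x ∈ zz r Zr, x ∈ zz (.node l r) Z ∨ x ∈ vis G a l := by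
    intro x hx
    obtain ⟨u, hu, hx⟩ := mem_zz.1 hx
    rcases mem_union.1 (hZrle u hx) with h | h
    · exact Or.inl (mem_zz.2 ⟨u, hmr u hu, h⟩)
    · exact Or.inr h
  have hzT : ∀ x ∈ zz (.node l r) Z, x ∉ verts l ∧ x ∉ verts r ∧ x ∈ zz l Zl ∪ zz r Zr := by
    intro x hx
    obtain ⟨u, hu, hx⟩ := mem_zz.1 hx
    refine ⟨(hZout u hu x hx).1, (hZout u hu x hx).2, ?_⟩
    rcases mem_union.1 hu with h | h
    · exact mem_union_left _ (sub_zz h (hZZl u hx))
    · exact mem_union_right _ (sub_zz h (hZZr u hx))
  have sl : Side G (Hl ⊔ Hr ⊔ inside G W) d l Zl W :=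
    ⟨hIl, subset_union_left, fun u hu hu' z hz => Or.inl (Or.inl (hl.hid u hu hu' z hz))⟩
  have sr : Side G (Hl ⊔ Hr ⊔ inside G W) d r Zr W :=
    ⟨hIr, subset_union_right, fun u hu hu' z hz => Or.inl (Or.inr (hr.hid u hu hu' z hz))⟩
  have hWin : ∀ x ∈ W, ∀ y ∈ W, G.Adj x y → (Hl ⊔ Hr ⊔ inside G W).Adj x y :=
    fun x hx y hy h => Or.inr ⟨h, hx, hy⟩
  refine ⟨Hl ⊔ Hr ⊔ inside G W, ?_, ?_, ?_, ?_⟩
  · exact sup_le (sup_le hl.le hr.le) fun u v h => h.1
  · obtain ⟨m1, B1, par1, h1⟩ := hl.dec
    obtain ⟨m2, B2, par2, h2⟩ := hr.dec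
    refine ⟨_, _, _, h1.glue h2 (W := W) (H3 := inside G W) ?_ ?_ ?_ ?_ ?_ ?_ ?_ ?_ ?_
      (fun u v h => h.2)⟩
    · have c1 := card_vis_le G ha1 hw.2.1.types
      have c2 := card_vis_le G ha1 hw.2.2.types
      have c3 := card_zz_le hIl hw.2.1.types
      have c4 := card_zz_le hIr hw.2.2.types
      have e1 := card_union_le (vis G a l) (zz l Zl)
      have e2 := card_union_le (vis G a r) (zz r Zr)
      have e3 := card_union_le (vis G a l ∪ zz l Zl) (vis G a r ∪ zz r Zr)
      have e4 : 2 * (d + 1) ^ 2 * w = a * w + (d + 1) * w + (a * w + (d + 1) * w) := by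
        rw [ha]; ring
      rw [e4]
      change (vis G a l ∪ zz l Zl ∪ (vis G a r ∪ zz r Zr)).card ≤ _
      omega
    · -- R ⊆ W
      apply union_subset
      · refine (visN_sub _ _ _ _).trans (union_subset ?_ ?_)
        · exact fun x hx => mem_union_left _ (mem_union_left _ hx)
        · exact fun x hx => mem_union_right _ (mem_union_left _ hx)
      · intro x hx
        rcases mem_union.1 (hzT x hx).2.2 with h | h
        · exact mem_union_left _ (mem_union_right _ h)
        · exact mem_union_right _ (mem_union_right _ h)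
    · -- W ⊆ S
      intro x hx
      rw [hW, mem_union, mem_union, mem_union] at hx
      rcases hx with (h | h) | (h | h)
      · exact mem_union_left _ (mem_union_left _ (hvl h))
      · rcases hzl x h with h | h
        · exact mem_union_right _ h
        · exact mem_union_left _ (mem_union_right _ (hvr h))
      · exact mem_union_left _ (mem_union_right _ (hvr h))
      · rcases hzr x h with h | h
        · exact mem_union_right _ h
        · exact mem_union_left _ (mem_union_left _ (hvl h))
    · -- S1 ⊆ S
      intro x hx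
      rcases mem_union.1 hx with h | h
      · exact mem_union_left _ (mem_union_left _ h)
      · rcases hzl x h with h | h
        · exact mem_union_right _ h
        · exact mem_union_left _ (mem_union_right _ (hvr h))
    · -- S2 ⊆ S
      intro x hx
      rcases mem_union.1 hx with h | h
      · exact mem_union_left _ (mem_union_right _ h)
      · rcases hzr x h with h | h
        · exact mem_union_right _ h
        · exact mem_union_left _ (mem_union_left _ (hvl h))
    · -- S ⊆ W ∪ S1 ∪ S2
      intro x hx
      rcases mem_union.1 hx with h | h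
      · rcases mem_union.1 h with h | h
        · exact mem_union_left _ (mem_union_right _ (mem_union_left _ h))
        · exact mem_union_right _ (mem_union_left _ h)
      · rcases mem_union.1 (hzT x h).2.2 with h | h
        · exact mem_union_left _ (mem_union_right _ (mem_union_right _ h))
        · exact mem_union_right _ (mem_union_right _ h)
    · -- S1 ∩ W ⊆ R1
      intro x hx
      rw [mem_inter] at hx
      rcases mem_union.1 hx.1 with hxl | h
      · have hx2 := hx.2
        rw [hW, mem_union] at hx2
        rcases hx2 with h | h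
        · exact h
        · rcases mem_union.1 h with h | h
          · exact absurd (hvr h) (hdj hxl)
          · rcases hzr x h with h | h
            · exact absurd hxl (hzT x h).1
            · exact mem_union_left _ h
      · exact mem_union_right _ h
    · -- S2 ∩ W ⊆ R2
      intro x hx
      rw [mem_inter] at hx
      rcases mem_union.1 hx.1 with hxr | h
      · have hx2 := hx.2
        rw [hW, mem_union] at hx2
        rcases hx2 with h | h
        · rcases mem_union.1 h with h | h
          · exact absurd hxr (hdj (hvl h))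
          · rcases hzl x h with h | h
            · exact absurd hxr (hzT x h).2.1
            · exact mem_union_left _ h
        · exact h
      · exact mem_union_right _ h
    · -- S1 ∩ S2 ⊆ W
      intro x hx
      rw [mem_inter] at hx
      rcases mem_union.1 hx.1 with hxl | h
      · rcases mem_union.1 hx.2 with hxr | h
        · exact absurd hxr (hdj hxl)
        · exact mem_union_right _ (mem_union_right _ h)
      · exact mem_union_left _ (mem_union_right _ h)
  · intro u hu hu' z hz
    rcases mem_union.1 hu with h | h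
    · exact sl.adj hWin h (hZZl u hz)
    · exact sr.adj hWin h (hZZr u hz)
  · intro p hp q hq u hu v hv huv
    have hql : IsMotion Hl p q := fun x y h => hq x y (Or.inl (Or.inl h))
    have hqr : IsMotion Hr p q := fun x y h => hq x y (Or.inl (Or.inr h))
    rcases mem_union.1 hu with hu | hu
    · rcases mem_union.1 hv with hv | hv
      · exact hl.mot p hp q hql u hu v hv huv
      · exact cross hd sl sr hT.1 hWin hp hq hu hv huv
    · rcases mem_union.1 hv with hv | hv
      · have := cross hd sl sr hT.1 hWin hp hq hv hu huv.symm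
        rw [← neg_sub (p u), ← neg_sub (q u), neg_dotProduct_neg] at this
        exact this
      · exact hr.mot p hp q hqr u hu v hv huv

theorem exists_out {d : ℕ} (hd : 1 ≤ d) (G : SimpleGraph V) (w : ℕ) : ∀ (T : BT V)
    (Z : V → Finset V), Once T → WidthLE G w T → Inv G (d + 1) (verts T) Z →
    ∃ H, Out G H d w T Z
  | .leaf _, _, _, hw, hI => ⟨⊥, out_leaf hw hI⟩
  | .node l r, Z, hT, hw, hI => by
    have ha1 : 1 ≤ d * d + d := by omega
    have hb : d + 1 ≤ d * d + d := by nlinarith
    have hIl : Inv G (d + 1) (verts l)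
        (step G (d + 1) (verts l) (vis G (d * d + d) r) Z) :=
      inv_step rfl hI hT.1 (vis_sub _ _ _) (fun x hx hx' => by
        rw [card_cls_of_notMem G ha1 hx hx']
        exact hb)
    have hIr : Inv G (d + 1) (verts r)
        (step G (d + 1) (verts r) (vis G (d * d + d) l) Z) :=
      inv_step (union_comm _ _) hI hT.1.symm (vis_sub _ _ _) (fun x hx hx' => by
        rw [card_cls_of_notMem G ha1 hx hx']
        exact hb)
    obtain ⟨Hl, hl⟩ := exists_out hd G w l _ hT.2.1 hw.2.1 hIl
    obtain ⟨Hr, hr⟩ := exists_out hd G w r _ hT.2.2 hw.2.2 hIr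
    exact out_node hd hT hw hI hIl hIr hl hr

/-- **The sparsification theorem.** A graph of module-width at most `w` has a spanning subgraph of
treewidth at most `2 (d + 1) ^ 2 w` with the same infinitesimal motions in `ℝ^d`. -/
theorem exists_sparse {d : ℕ} (hd : 1 ≤ d) {G : SimpleGraph V} {w : ℕ} {T : BT V} (hT : Once T)
    (hTV : verts T = univ) (hw : WidthLE G w T) : ∃ H ≤ G,
      Pool.Agent.H789R5.TreewidthLE (2 * (d + 1) ^ 2 * w) H ∧
      ∀ p : V → Fin d → ℝ, Gen p → ∀ q, IsMotion H p q → IsMotion G p q := by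
  have hI : Inv G (d + 1) (verts T) fun _ => ∅ := by
    have h0 : ∀ u, nbo G (verts T) u = ∅ := by
      intro u
      rw [eq_empty_iff_forall_notMem]
      intro x hx
      exact (mem_nbo.1 hx).2 (by rw [hTV]; exact mem_univ x)
    refine ⟨fun _ _ => empty_subset _, fun _ _ => by simp, fun u _ _ => (h0 u).symm,
      fun _ _ _ _ _ => rfl⟩
  obtain ⟨H, h⟩ := exists_out hd G w T _ hT hw hI
  refine ⟨H, h.le, ?_, ?_⟩
  · obtain ⟨m, B, par, hB⟩ := h.dec
    have e : verts T ∪ zz T (fun _ => ∅) = univ := by
      rw [hTV]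
      exact eq_univ_of_forall fun x => mem_union_left _ (mem_univ x)
    rw [e] at hB
    exact hB.treewidth
  · intro p hp q hq u v huv
    exact h.mot p hp q hq u (by rw [hTV]; exact mem_univ u) v (by rw [hTV]; exact mem_univ v) huv

end Pool.Agent.T2H92.CW
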