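import Mathlib
import Pool.Agent.T2H92.CW.Main

/-!
# Clique-width expressions
-/

set_option autoImplicit false

namespace Pool.Agent.T2H92.CW

open Finset

/-- The expressions with `k` labels for labelled graphs whose vertices lie in `V`: a single vertex
`v` with the label `i`; the disjoint union; all edges between the vertices with the label `i` and
those with the label `j`; the label `i` is changed into `j`. -/
inductive CExp (V : Type) (k : ℕ) : Type
  | vertex : V → Fin k → CExp V k
  | union : CExp V k → CExp V k → CExp V k
  | join : Fin k → Fin k → CExp V k → CExp V k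
  | relabel : Fin k → Fin k → CExp V k → CExp V k

namespace CExp

variable {V : Type} [DecidableEq V] {k : ℕ}

/-- the vertices of the labelled graph -/
def verts : CExp V k → Finset V
  | .vertex v _ => {v}
  | .union c c' => verts c ∪ verts c'
  | .join _ _ c => verts c
  | .relabel _ _ c => verts c

/-- the labels of the vertices -/
def lab : CExp V k → V → Fin k
  | .vertex _ i, _ => i
  | .union c c', v => if v ∈ verts c then lab c v else lab c' v
  | .join _ _ c, v => lab c v
  | .relabel i j c, v => if lab c v = i then j else lab c v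

/-- the edges of the labelled graph -/
def Adj : CExp V k → V → V → Prop
  | .vertex _ _, _, _ => False
  | .union c c', u, v => Adj c u v ∨ Adj c' u v
  | .join i j c, u, v => Adj c u v ∨ (u ∈ verts c ∧ v ∈ verts c ∧
      ((lab c u = i ∧ lab c v = j) ∨ (lab c u = j ∧ lab c v = i)))
  | .relabel _ _ c, u, v => Adj c u v

/-- the unions are disjoint, and edges are only added between different labels -/
def WF : CExp V k → Prop
  | .vertex _ _ => True
  | .union c c' => Disjoint (verts c) (verts c') ∧ WF c ∧ WF c'
  | .join i j c => i ≠ j ∧ WF c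
  | .relabel _ _ c => WF c

theorem adj_mem : ∀ (c : CExp V k) {u v : V}, c.Adj u v → u ∈ c.verts ∧ v ∈ c.verts
  | .vertex _ _, _, _, h => (h : False).elim
  | .union c c', u, v, h => by
    rcases h with h | h
    · exact ⟨mem_union_left _ (adj_mem c h).1, mem_union_left _ (adj_mem c h).2⟩
    · exact ⟨mem_union_right _ (adj_mem c' h).1, mem_union_right _ (adj_mem c' h).2⟩
  | .join i j c, u, v, h => by
    rcases h with h | h
    · exact adj_mem c h
    · exact ⟨h.1, h.2.1⟩
  | .relabel _ _ c, u, v, h => adj_mem c (u := u) (v := v) h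

end CExp

variable {V : Type} [DecidableEq V] [Fintype V]

/-- The clique-width of `G` is at most `k`: the graph is the value of an expression with `k`
labels. -/
def CliqueWidthLE (k : ℕ) (G : SimpleGraph V) : Prop :=
  ∃ c : CExp V k, c.WF ∧ c.verts = univ ∧ ∀ u v, G.Adj u v ↔ c.Adj u v

/-- The module-width of `G` is at most `w`: there is a binary tree whose leaves are the vertices of
`G`, each vertex once, such that for each node the vertices below it have at most `w` different
neighbourhoods in the set of the other vertices. -/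
def ModuleWidthLE (w : ℕ) (G : SimpleGraph V) : Prop :=
  ∃ T : BT V, Once T ∧ verts T = univ ∧ WidthLE G w T

theorem types_le_of_lab {k : ℕ} {G : SimpleGraph V} {A : Finset V} (lab : V → Fin k)
    (S : Fin k → V → Prop) (h : ∀ u ∈ A, ∀ x, x ∉ A → (G.Adj u x ↔ S (lab u) x)) :
    types G A ≤ k := by
  classical
  have h1 : A.image (nbo G A) ⊆ (univ : Finset (Fin k)).image
      (fun i => univ.filter fun x => S i x ∧ x ∉ A) := by
    intro κ hκ
    obtain ⟨u, hu, rfl⟩ := mem_image.1 hκ
    refine mem_image.2 ⟨lab u, mem_univ _, ?_⟩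
    ext x
    rw [mem_nbo, mem_filter]
    constructor
    · rintro ⟨-, h2, h3⟩
      exact ⟨(h u hu x h3).2 h2, h3⟩
    · rintro ⟨h2, h3⟩
      exact ⟨mem_univ _, (h u hu x h3).1 h2, h3⟩
  refine (card_le_card h1).trans (card_image_le.trans ?_)
  rw [card_univ, Fintype.card_fin]

theorem exists_tree {k : ℕ} (G : SimpleGraph V) : ∀ c : CExp V k, c.WF →
    (∃ R : Fin k → Fin k → Prop, ∀ u ∈ c.verts, ∀ x ∈ c.verts, u ≠ x →
      (G.Adj u x ↔ c.Adj u x ∨ R (c.lab u) (c.lab x))) →
    (∃ S : Fin k → V → Prop, ∀ u ∈ c.verts, ∀ x, x ∉ c.verts →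
      (G.Adj u x ↔ S (c.lab u) x)) →
    ∃ T : BT V, Once T ∧ verts T = c.verts ∧ WidthLE G k T
  | .vertex v i, _, _, ⟨S, hS⟩ => ⟨.leaf v, trivial, rfl, types_le_of_lab _ S hS⟩
  | .union c c', hc, ⟨R, hR⟩, ⟨S, hS⟩ => by
    classical
    have hd := disjoint_left.1 hc.1
    have hlab : ∀ u ∈ c.verts, (CExp.union c c').lab u = c.lab u := by
      intro u hu
      simp only [CExp.lab]
      rw [if_pos hu]
    have hlab' : ∀ u ∈ c'.verts, (CExp.union c c').lab u = c'.lab u := by
      intro u hu
      simp only [CExp.lab]
      rw [if_neg (fun h => hd h hu)]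
    obtain ⟨T, hT, hTv, hTw⟩ := exists_tree G c hc.2.1 ⟨R, fun u hu x hx hux => by
      rw [hR u (mem_union_left _ hu) x (mem_union_left _ hx) hux, hlab u hu, hlab x hx]
      constructor
      · rintro ((h | h) | h)
        · exact Or.inl h
        · exact absurd (c'.adj_mem h).1 (hd hu)
        · exact Or.inr h
      · rintro (h | h)
        · exact Or.inl (Or.inl h)
        · exact Or.inr h⟩
      ⟨fun i x => if x ∈ c'.verts then R i (c'.lab x) else S i x, fun u hu x hx => by
        beta_reduce
        by_cases hx' : x ∈ c'.verts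
        · rw [if_pos hx', hR u (mem_union_left _ hu) x (mem_union_right _ hx')
            (fun h => hx (h ▸ hu)), hlab u hu, hlab' x hx']
          constructor
          · rintro ((h | h) | h)
            · exact absurd (c.adj_mem h).2 hx
            · exact absurd (c'.adj_mem h).1 (hd hu)
            · exact h
          · exact fun h => Or.inr h
        · rw [if_neg hx', hS u (mem_union_left _ hu) x (by
            intro h
            rcases mem_union.1 h with h | h
            · exact hx h
            · exact hx' h), hlab u hu]⟩
    obtain ⟨T', hT', hTv', hTw'⟩ := exists_tree G c' hc.2.2 ⟨R, fun u hu x hx hux => by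
      rw [hR u (mem_union_right _ hu) x (mem_union_right _ hx) hux, hlab' u hu, hlab' x hx]
      constructor
      · rintro ((h | h) | h)
        · exact absurd hu (hd (c.adj_mem h).1)
        · exact Or.inl h
        · exact Or.inr h
      · rintro (h | h)
        · exact Or.inl (Or.inr h)
        · exact Or.inr h⟩
      ⟨fun i x => if x ∈ c.verts then R i (c.lab x) else S i x, fun u hu x hx => by
        beta_reduce
        by_cases hx' : x ∈ c.verts
        · rw [if_pos hx', hR u (mem_union_right _ hu) x (mem_union_left _ hx')
            (fun h => hx (h ▸ hu)), hlab' u hu, hlab x hx']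
          constructor
          · rintro ((h | h) | h)
            · exact absurd hu (hd (c.adj_mem h).1)
            · exact absurd (c'.adj_mem h).2 hx
            · exact h
          · exact fun h => Or.inr h
        · rw [if_neg hx', hS u (mem_union_right _ hu) x (by
            intro h
            rcases mem_union.1 h with h | h
            · exact hx' h
            · exact hx h), hlab' u hu]⟩
    refine ⟨.node T T', ⟨by rw [hTv, hTv']; exact hc.1, hT, hT'⟩, ?_, ?_, hTw, hTw'⟩
    · rw [verts, hTv, hTv']
      rfl
    · rw [hTv, hTv']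
      exact types_le_of_lab _ S hS
  | .join i j c, hc, ⟨R, hR⟩, ⟨S, hS⟩ => by
    refine exists_tree G c hc.2 ⟨fun a b => R a b ∨ ((a = i ∧ b = j) ∨ (a = j ∧ b = i)),
      fun u hu x hx hux => ?_⟩ ⟨S, hS⟩
    rw [hR u hu x hx hux]
    constructor
    · rintro ((h | h) | h)
      · exact Or.inl h
      · exact Or.inr (Or.inr h.2.2)
      · exact Or.inr (Or.inl h)
    · rintro (h | h | h)
      · exact Or.inl (Or.inl h)
      · exact Or.inr h
      · exact Or.inl (Or.inr ⟨hu, hx, h⟩)
  | .relabel i j c, hc, ⟨R, hR⟩, ⟨S, hS⟩ =>
    exists_tree G c hc ⟨fun a b => R (if a = i then j else a) (if b = i then j else b), hR⟩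
      ⟨fun a x => S (if a = i then j else a) x, hS⟩

/-- The module-width is at most the clique-width. -/
theorem moduleWidth_of_cliqueWidth {k : ℕ} {G : SimpleGraph V} (h : CliqueWidthLE k G) :
    ModuleWidthLE k G := by
  obtain ⟨c, hc, hcv, hcG⟩ := h
  obtain ⟨T, hT, hTv, hTw⟩ := exists_tree G c hc ⟨fun _ _ => False, fun u _ x _ _ => by
    rw [hcG u x, or_false]⟩ ⟨fun _ _ => True, fun u _ x hx => by
      rw [hcv] at hx
      exact absurd (mem_univ x) hx⟩
  exact ⟨T, hT, hTv.trans hcv, hTw⟩

end Pool.Agent.T2H92.CW
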